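import Pool.Agent.Run7.h48.Gen

/-!
Highly computable bipartite graphs have computable colourings with four colours.
-/

set_option autoImplicit false

namespace Run7.h48.Col

open Encodable Pool.Agent.Helper446 Pool.Agent.Helper446.RE Run7.h48.Gen

/-- The sum of the first values. -/
def S (b : ℕ → ℕ) (m : ℕ) : ℕ := Nat.rec (motive := fun _ => ℕ) 0 (fun x acc => acc + b x) m

theorem le_S (b : ℕ → ℕ) {x m : ℕ} (h : x < m) : b x ≤ S b m := by
  induction m with
  | zero => omega
  | succ m ih =>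
    have h1 : S b (m + 1) = S b m + b m := rfl
    rcases Nat.lt_succ_iff_lt_or_eq.1 h with h2 | rfl
    · have := ih h2; omega
    · omega

theorem S_comp {b : ℕ → ℕ} (hb : Computable b) {α : Type} [Primcodable α] {f : α → ℕ}
    (hf : Computable f) : Computable fun a => S b (f a) := by
  have h1 : Computable fun m : ℕ => S b m := by
    unfold S
    have h2 : Computable₂ fun (_ : ℕ) (y : ℕ × ℕ) => y.2 + b y.1 := by
      have h3 : Computable fun x : ℕ × (ℕ × ℕ) => b x.2.1 := hb.comp (by fun_prop)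
      unfold Computable₂
      fun_prop
    exact Computable.nat_rec (f := fun m : ℕ => m) (g := fun _ => 0)
      (h := fun _ y => y.2 + b y.1) Computable.id (Computable.const 0) h2
  exact h1.comp hf

/-- The ends of the layers. -/
def w (b : ℕ → ℕ) (i : ℕ) : ℕ :=
  Nat.rec (motive := fun _ => ℕ) 0 (fun _ acc => acc + 1 + S b acc) i

theorem w_succ (b : ℕ → ℕ) (i : ℕ) : w b (i + 1) = w b i + 1 + S b (w b i) := rfl

theorem w_comp {b : ℕ → ℕ} (hb : Computable b) {α : Type} [Primcodable α] {f : α → ℕ}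
    (hf : Computable f) : Computable fun a => w b (f a) := by
  have h1 : Computable fun m : ℕ => w b m := by
    unfold w
    have h2 : Computable₂ fun (_ : ℕ) (y : ℕ × ℕ) => y.2 + 1 + S b y.2 := by
      have h3 : Computable fun x : ℕ × (ℕ × ℕ) => S b x.2.2 := S_comp hb (by fun_prop)
      unfold Computable₂
      fun_prop
    exact Computable.nat_rec (f := fun m : ℕ => m) (g := fun _ => 0)
      (h := fun _ y => y.2 + 1 + S b y.2) Computable.id (Computable.const 0) h2
  exact h1.comp hf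

theorem w_lt (b : ℕ → ℕ) (i : ℕ) : w b i < w b (i + 1) := by
  rw [w_succ]; omega

theorem w_mono (b : ℕ → ℕ) : Monotone (w b) := (strictMono_nat_of_lt_succ (w_lt b)).monotone

theorem exists_layer (b : ℕ → ℕ) (x : ℕ) : ∃ i, w b i ≤ x ∧ x < w b (i + 1) := by
  induction x with
  | zero => exact ⟨0, le_rfl, w_lt b 0⟩
  | succ x ih =>
    obtain ⟨i, h1, h2⟩ := ih
    by_cases h : x + 1 < w b (i + 1)
    · exact ⟨i, by omega, h⟩
    · exact ⟨i + 1, by omega, lt_of_le_of_lt (by omega) (w_lt b (i + 1))⟩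

theorem layer_unique (b : ℕ → ℕ) {x i j : ℕ} (h1 : w b i ≤ x) (h2 : x < w b (i + 1))
    (h3 : w b j ≤ x) (h4 : x < w b (j + 1)) : i = j := by
  rcases lt_trichotomy i j with h | h | h
  · have := w_mono b (show i + 1 ≤ j from h); omega
  · exact h
  · have := w_mono b (show j + 1 ≤ i from h); omega

theorem four_colour {G : SimpleGraph ℕ} (hE : ComputablePred fun p : ℕ × ℕ => G.Adj p.1 p.2)
    {b : ℕ → ℕ} (hb : Computable b) (hN : ∀ x y, G.Adj x y → y < b x)
    (hcol : ∃ c : ℕ → Bool, ∀ x y, G.Adj x y → c x ≠ c y) :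
    ∃ c : ℕ → ℕ, Computable c ∧ (∀ x, c x < 4) ∧ ∀ x y, G.Adj x y → c x ≠ c y := by
  classical
  have hT : REPred fun x : ℕ × List Bool => x.2.length = w b (x.1 + 1) ∧
      ∀ u < w b (x.1 + 1), ∀ v < w b (x.1 + 1),
        (u < w b x.1 ∨ v < w b x.1 ∨ ¬ G.Adj u v) ∨ x.2[u]? ≠ x.2[v]? := by
    have hw1 : Computable fun x : ℕ × List Bool => w b (x.1 + 1) := w_comp hb (by fun_prop)
    refine RE.and (RE.eq (by fun_prop) hw1) ?_
    refine RE.all_lt (p := fun (x : ℕ × List Bool) (u : ℕ) => ∀ v < w b (x.1 + 1),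
      (u < w b x.1 ∨ v < w b x.1 ∨ ¬ G.Adj u v) ∨ x.2[u]? ≠ x.2[v]?) ?_ hw1
    refine RE.all_lt (p := fun (x : (ℕ × List Bool) × ℕ) (v : ℕ) =>
      (x.2 < w b x.1.1 ∨ v < w b x.1.1 ∨ ¬ G.Adj x.2 v) ∨ x.1.2[x.2]? ≠ x.1.2[v]?) ?_
      (w_comp hb (by fun_prop))
    have hw2 : Computable fun x : ((ℕ × List Bool) × ℕ) × ℕ => w b x.1.1.1 :=
      w_comp hb (by fun_prop)
    refine RE.or (RE.or (RE.lt (by fun_prop) hw2) (RE.or (RE.lt (by fun_prop) hw2) ?_))
      (RE.ne (by fun_prop) (by fun_prop))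
    exact RE.comp hE.not.to_re (f := fun x : ((ℕ × List Bool) × ℕ) × ℕ => (x.1.2, x.2))
      (by fun_prop)
  obtain ⟨f, hf, hf1, hf2⟩ := RE.uniformize
    (r := fun (i : ℕ) (t : List Bool) => t.length = w b (i + 1) ∧
      ∀ u < w b (i + 1), ∀ v < w b (i + 1),
        (u < w b i ∨ v < w b i ∨ ¬ G.Adj u v) ∨ t[u]? ≠ t[v]?) hT
  have hdom : ∀ i, (f i).Dom := by
    intro i
    rw [hf1]
    obtain ⟨c, hc⟩ := hcol
    refine ⟨(List.range (w b (i + 1))).map c, by simp, ?_⟩
    intro u hu v hv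
    by_cases h : G.Adj u v
    · right
      rw [List.getElem?_map, List.getElem?_map, List.getElem?_range hu, List.getElem?_range hv]
      simpa using hc u v h
    · exact Or.inl (Or.inr (Or.inr h))
  choose lay hlay1 hlay2 using exists_layer b
  let tt : ℕ → List Bool := fun i => (f i).get (hdom i)
  have htt : ∀ i, tt i ∈ f i := fun i => Part.get_mem (hdom i)
  let c : ℕ → ℕ := fun x => 2 * (lay x % 2) + (if (tt (lay x))[x]? = some true then 1 else 0)
  refine ⟨c, ?_, ?_, ?_⟩
  · apply RE.computable_of_graph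
    have h1 : REPred fun x : ℕ × ℕ => ∃ i : ℕ, ∃ t : List Bool, t ∈ f i ∧ w b i ≤ x.1 ∧
        x.1 < w b (i + 1) ∧ ((t[x.1]? = some true ∧ x.2 = 2 * (i % 2) + 1) ∨
          (t[x.1]? ≠ some true ∧ x.2 = 2 * (i % 2))) := by
      refine RE.ex (p := fun (x : ℕ × ℕ) (i : ℕ) => ∃ t : List Bool, t ∈ f i ∧ w b i ≤ x.1 ∧
        x.1 < w b (i + 1) ∧ ((t[x.1]? = some true ∧ x.2 = 2 * (i % 2) + 1) ∨
          (t[x.1]? ≠ some true ∧ x.2 = 2 * (i % 2)))) ?_
      refine RE.ex (p := fun (x : (ℕ × ℕ) × ℕ) (t : List Bool) => t ∈ f x.2 ∧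
        w b x.2 ≤ x.1.1 ∧ x.1.1 < w b (x.2 + 1) ∧
          ((t[x.1.1]? = some true ∧ x.1.2 = 2 * (x.2 % 2) + 1) ∨
          (t[x.1.1]? ≠ some true ∧ x.1.2 = 2 * (x.2 % 2)))) ?_
      have hmod : Computable fun x : ((ℕ × ℕ) × ℕ) × List Bool => x.1.2 % 2 :=
        Primrec.nat_mod.to_comp.comp (by fun_prop) (by fun_prop)
      refine RE.and ?_ (RE.and (RE.le (w_comp hb (by fun_prop)) (by fun_prop))
        (RE.and (RE.lt (by fun_prop) (w_comp hb (by fun_prop))) (RE.or
          (RE.and (RE.eq (by fun_prop) (by fun_prop)) (RE.eq (by fun_prop) (by fun_prop)))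
          (RE.and (RE.ne (by fun_prop) (by fun_prop)) (RE.eq (by fun_prop) (by fun_prop))))))
      exact RE.comp (graph_re hf) (f := fun x : ((ℕ × ℕ) × ℕ) × List Bool => (x.1.2, x.2))
        (by fun_prop)
    refine h1.of_eq fun x => ?_
    obtain ⟨x, v⟩ := x
    simp only
    constructor
    · rintro ⟨i, t, h2, h3, h4, h5⟩
      have h6 : lay x = i := layer_unique b (hlay1 x) (hlay2 x) h3 h4
      have h7 : tt (lay x) = t := by
        rw [h6]; exact Part.mem_unique (htt i) h2
      show 2 * (lay x % 2) + (if (tt (lay x))[x]? = some true then 1 else 0) = v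
      rw [h7]
      rcases h5 with ⟨h8, h9⟩ | ⟨h8, h9⟩
      · rw [if_pos h8, h6, h9]
      · rw [if_neg h8, h6, h9]; omega
    · intro h2
      refine ⟨lay x, tt (lay x), htt _, hlay1 x, hlay2 x, ?_⟩
      by_cases h8 : (tt (lay x))[x]? = some true
      · left
        refine ⟨h8, ?_⟩
        rw [← h2]
        show 2 * (lay x % 2) + (if (tt (lay x))[x]? = some true then 1 else 0) = _
        rw [if_pos h8]
      · right
        refine ⟨h8, ?_⟩
        rw [← h2]
        show 2 * (lay x % 2) + (if (tt (lay x))[x]? = some true then 1 else 0) = _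
        rw [if_neg h8]; omega
  · intro x
    show 2 * (lay x % 2) + (if (tt (lay x))[x]? = some true then 1 else 0) < 4
    have : lay x % 2 < 2 := Nat.mod_lt _ (by omega)
    split_ifs <;> omega
  · -- neighbouring layers
    have hclose : ∀ x y, G.Adj x y → lay y ≤ lay x + 1 := by
      intro x y hxy
      by_contra hcon
      have h1 : w b (lay x + 1 + 1) ≤ w b (lay y) := w_mono b (by omega)
      have h2 : y < b x := hN x y hxy
      have h3 : b x ≤ S b (w b (lay x + 1)) := le_S b (hlay2 x)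
      have h4 := w_succ b (lay x + 1)
      have h5 := hlay1 y
      omega
    intro x y hxy heq
    have h1 := hclose x y hxy
    have h2 := hclose y x hxy.symm
    have heq' : 2 * (lay x % 2) + (if (tt (lay x))[x]? = some true then 1 else 0) =
      2 * (lay y % 2) + (if (tt (lay y))[y]? = some true then 1 else 0) := heq
    by_cases h3 : lay x = lay y
    · obtain ⟨h4, h5⟩ := hf2 (lay x) _ (htt (lay x))
      have hx2 := hlay2 x
      have hy2 := hlay2 y
      have hx1 := hlay1 x
      have hy1 := hlay1 y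
      rw [← h3] at hy1 hy2 heq'
      have h6 := h5 x hx2 y hy2
      have h7 : (tt (lay x))[x]? ≠ (tt (lay x))[y]? := by
        rcases h6 with (h6 | h6 | h6) | h6
        · omega
        · omega
        · exact absurd hxy h6
        · exact h6
      have h8 : x < (tt (lay x)).length := by rw [h4]; exact hx2
      have h9 : y < (tt (lay x)).length := by rw [h4]; exact hy2
      rw [List.getElem?_eq_getElem h8, List.getElem?_eq_getElem h9] at heq' h7
      rcases hb1 : (tt (lay x))[x] with _ | _ <;> rcases hb2 : (tt (lay x))[y] with _ | _ <;>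
        simp [hb1, hb2] at heq' h7
    · have h4 : lay x % 2 ≠ lay y % 2 := by omega
      have h5 : lay x % 2 < 2 := Nat.mod_lt _ (by omega)
      have h6 : lay y % 2 < 2 := Nat.mod_lt _ (by omega)
      split_ifs at heq' <;> omega

end Run7.h48.Col
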