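import Pool.Agent.Run7.h48.Col

/-!
A computable locally finite graph whose neighbour lists are computable from a generic set is
highly computable.
-/

set_option autoImplicit false

namespace Run7.h48.GasarchMain

open Encodable Pool.Agent.Helper446 Pool.Agent.Helper446.RE Pool.Agent.Helper446.Defs
  Pool.Agent.Helper446.Oracle Run7.h48.Gen

/-- The code of a finite set is the code of a list with the same elements. -/
theorem encode_finset (s : Finset ℕ) :
    ∃ l : List ℕ, encode s = encode l ∧ ∀ y, y ∈ l ↔ y ∈ s := by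
  have h1 : (decode (encode s.val) : Option (Multiset ℕ)) = some s.val := encodek s.val
  have h2 : (((fun l : List ℕ => (l : Multiset ℕ)) <$> (decode (encode s.val) :
      Option (List ℕ))) : Option (Multiset ℕ)) = some s.val := h1
  rw [Option.map_eq_map, Option.map_eq_some_iff] at h2
  obtain ⟨l, h3, h4⟩ := h2
  refine ⟨l, ?_, ?_⟩
  · have h5 : (decode (encode s.val) : Option (List ℕ)) =
        some (Denumerable.ofNat (List ℕ) (encode s.val)) :=
      Denumerable.decode_eq_ofNat (List ℕ) _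
    rw [h5] at h3
    have h6 := Option.some.inj h3
    rw [← h6]
    have h7 : encode (Denumerable.ofNat (List ℕ) (encode s.val)) = encode s.val :=
      Denumerable.encode_ofNat _
    rw [h7]
    rfl
  · intro y
    have h5 : y ∈ (l : Multiset ℕ) ↔ y ∈ s.val := by
      rw [← h4]
    simpa using h5

theorem computable_bound {A : Set ℕ} (hA : Generic A) {G : SimpleGraph ℕ}
    (hE : ComputablePred fun p : ℕ × ℕ => G.Adj p.1 p.2) {N : ℕ → Finset ℕ}
    (hN : ∀ x y : ℕ, G.Adj x y ↔ y ∈ N x)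
    (hNA : REIn A fun p : ℕ × ℕ => encode (N p.1) = p.2) :
    ∃ b : ℕ → ℕ, Computable b ∧ ∀ x y, G.Adj x y → y < b x := by
  classical
  have hno : REPred fun x : ℕ × ℕ => ¬ ∀ y, G.Adj x.1 y → y < x.2 := by
    have h1 : REPred fun x : ℕ × ℕ => ∃ y, G.Adj x.1 y ∧ x.2 ≤ y := by
      refine RE.ex (p := fun (x : ℕ × ℕ) (y : ℕ) => G.Adj x.1 y ∧ x.2 ≤ y) ?_
      refine RE.and ?_ (RE.le (by fun_prop) (by fun_prop))
      exact RE.comp hE.to_re (f := fun x : (ℕ × ℕ) × ℕ => (x.1.1, x.2)) (by fun_prop)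
    refine h1.of_eq fun x => ?_
    push Not
    exact Iff.rfl
  have hyes : REIn A fun x : ℕ × ℕ => ∀ y, G.Adj x.1 y → y < x.2 := by
    have h1 : REIn A fun x : ℕ × ℕ => ∃ l : List ℕ, encode (N x.1) = encode l ∧
        ∀ y ∈ l, y < x.2 := by
      refine REIn.ex (S := fun (x : ℕ × ℕ) (l : List ℕ) => encode (N x.1) = encode l ∧
        ∀ y ∈ l, y < x.2) ?_
      refine REIn.and ?_ (REIn.of_re ?_)
      · exact hNA.comp (f := fun x : (ℕ × ℕ) × List ℕ => (x.1.1, encode x.2)) (by fun_prop)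
      · refine RE.all_mem (p := fun (x : (ℕ × ℕ) × List ℕ) (y : ℕ) => y < x.1.2)
          (l := fun x => x.2) ?_ (by fun_prop)
        exact RE.lt (by fun_prop) (by fun_prop)
    refine h1.of_eq fun x => ?_
    obtain ⟨l', hl1, hl2⟩ := encode_finset (N x.1)
    constructor
    · rintro ⟨l, h2, h3⟩ y hy
      rw [hl1] at h2
      have h4 : l' = l := encode_injective h2
      exact h3 y (h4 ▸ (hl2 y).2 ((hN _ _).1 hy))
    · intro h2
      exact ⟨l', hl1, fun y hy => h2 y ((hN _ _).2 ((hl2 y).1 hy))⟩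
  have hS : REPred fun x : ℕ × ℕ => ∀ y, G.Adj x.1 y → y < x.2 := re_of_generic hA hyes hno
  have hex : ∀ x : ℕ, ∃ s : ℕ, ∀ y, G.Adj x y → y < s := by
    intro x
    refine ⟨(N x).sup id + 1, fun y hy => Nat.lt_succ_of_le ?_⟩
    exact Finset.le_sup (f := id) ((hN _ _).1 hy)
  refine ⟨fun x => Nat.find (hex x), ?_, fun x => Nat.find_spec (hex x)⟩
  apply RE.computable_of_graph
  have h1 : REPred fun x : ℕ × ℕ => (∀ y, G.Adj x.1 y → y < x.2) ∧
      ∀ s < x.2, ¬ ∀ y, G.Adj x.1 y → y < s := by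
    refine RE.and hS ?_
    refine RE.all_lt (p := fun (x : ℕ × ℕ) (s : ℕ) => ¬ ∀ y, G.Adj x.1 y → y < s) ?_
      (by fun_prop)
    exact RE.comp hno (f := fun x : (ℕ × ℕ) × ℕ => (x.1.1, x.2)) (by fun_prop)
  refine h1.of_eq fun x => ?_
  show _ ↔ Nat.find (hex x.1) = x.2
  rw [Nat.find_eq_iff]

end Run7.h48.GasarchMain
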