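import Pool.Agent.Helper446.Oracle

/-!
Sets of natural numbers generic for the c.e. sets of binary strings: they are not computable,
everything which is c.e. in them and co-c.e. is c.e., and there is one computable from the
halting set.
-/

set_option autoImplicit false

namespace Run7.h48.Gen

open Encodable Pool.Agent.Helper446 Pool.Agent.Helper446.RE Pool.Agent.Helper446.Defs
  Pool.Agent.Helper446.Oracle
open Nat.Partrec (Code)

/-- The initial segment of length `n` of the characteristic sequence of `A`. -/
noncomputable def sg (A : Set ℕ) (n : ℕ) : List Bool := by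
  classical exact (List.range n).map fun x => decide (x ∈ A)

theorem sg_length (A : Set ℕ) (n : ℕ) : (sg A n).length = n := by
  unfold sg; simp

theorem sg_get {A : Set ℕ} {n x : ℕ} (h : x < n) (b : Bool) :
    (sg A n)[x]? = some b ↔ (b = true ↔ x ∈ A) := by
  classical
  unfold sg
  rw [List.getElem?_map, List.getElem?_range h]
  simp only [Option.map_some, Option.some.injEq]
  cases b <;> simp

/-- Genericity for c.e. sets of strings. -/
def Generic (A : Set ℕ) : Prop :=
  ∀ W : List Bool → Prop, REPred W → (∃ n, W (sg A n)) ∨ ∃ n, ∀ ρ, ¬ W (sg A n ++ ρ)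

/-- The string `τ` confirms the finite information `c`. -/
def okS (τ : List Bool) (c : List ℕ × List ℕ) : Prop :=
  (∀ x ∈ c.1, τ[x]? = some true) ∧ ∀ x ∈ c.2, τ[x]? = some false

theorem sg_append {A : Set ℕ} {n m : ℕ} (h : n ≤ m) : ∃ ρ, sg A m = sg A n ++ ρ := by
  refine ⟨(sg A m).drop n, ?_⟩
  have h1 : sg A n = (sg A m).take n := by
    classical
    unfold sg
    rw [← List.map_take]
    congr 1
    rw [List.take_range, Nat.min_eq_left h]
  rw [h1, List.take_append_drop]

theorem okS_sg {A : Set ℕ} {n : ℕ} {c : List ℕ × List ℕ} (h : okS (sg A n) c) : Ok A c := by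
  constructor
  · intro x hx
    have h1 := h.1 x hx
    have h2 : x < n := by
      by_contra hcon
      rw [List.getElem?_eq_none (by rw [sg_length]; omega)] at h1
      simp at h1
    exact ((sg_get h2 true).1 h1).1 rfl
  · intro x hx
    have h1 := h.2 x hx
    have h2 : x < n := by
      by_contra hcon
      rw [List.getElem?_eq_none (by rw [sg_length]; omega)] at h1
      simp at h1
    intro h3
    have := ((sg_get h2 false).1 h1).2 h3
    simp at this

theorem exists_okS {A : Set ℕ} {c : List ℕ × List ℕ} (h : Ok A c) (n : ℕ) :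
    ∃ m, n ≤ m ∧ okS (sg A m) c := by
  refine ⟨n + c.1.sum + c.2.sum + 1, by omega, ?_, ?_⟩
  · intro x hx
    have h1 : x ≤ c.1.sum := List.single_le_sum (by simp) x hx
    rw [sg_get (by omega)]
    simp [h.1 x hx]
  · intro x hx
    have h1 : x ≤ c.2.sum := List.single_le_sum (by simp) x hx
    rw [sg_get (by omega)]
    simp [h.2 x hx]

theorem okS_re {α : Type} [Primcodable α] {f : α → List Bool} {g : α → List ℕ × List ℕ}
    (hf : Computable f) (hg : Computable g) : REPred fun a => okS (f a) (g a) := by
  refine RE.and ?_ ?_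
  · refine RE.all_mem (p := fun a x => (f a)[x]? = some true) (l := fun a => (g a).1) ?_
      (by fun_prop)
    exact RE.eq (by fun_prop) (by fun_prop)
  · refine RE.all_mem (p := fun a x => (f a)[x]? = some false) (l := fun a => (g a).2) ?_
      (by fun_prop)
    exact RE.eq (by fun_prop) (by fun_prop)

/-- Something c.e. in a generic set and co-c.e. is c.e. -/
theorem re_of_generic {A : Set ℕ} (hA : Generic A) {α : Type} [Primcodable α] {S : α → Prop}
    (h1 : REIn A S) (h2 : REPred fun a => ¬ S a) : REPred S := by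
  obtain ⟨R, hR, hS⟩ := h1
  have hW : REPred fun τ : List Bool => ∃ a : α, ∃ c : List ℕ × List ℕ,
      ¬ S a ∧ R a c ∧ okS τ c := by
    refine RE.ex (p := fun (τ : List Bool) (a : α) => ∃ c : List ℕ × List ℕ,
      ¬ S a ∧ R a c ∧ okS τ c) ?_
    refine RE.ex (p := fun (x : List Bool × α) (c : List ℕ × List ℕ) =>
      ¬ S x.2 ∧ R x.2 c ∧ okS x.1 c) ?_
    refine RE.and ?_ (RE.and ?_ ?_)
    · exact RE.comp h2 (f := fun x : (List Bool × α) × (List ℕ × List ℕ) => x.1.2)
        (by fun_prop)
    · exact RE.comp hR (f := fun x : (List Bool × α) × (List ℕ × List ℕ) => (x.1.2, x.2))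
        (by fun_prop)
    · exact okS_re (f := fun x : (List Bool × α) × (List ℕ × List ℕ) => x.1.1)
        (g := fun x => x.2) (by fun_prop) (by fun_prop)
  rcases hA _ hW with ⟨n, a, c, h3, h4, h5⟩ | ⟨n, hn⟩
  · exact absurd ((hS a).2 ⟨c, h4, okS_sg h5⟩) h3
  · have h3 : REPred fun a => ∃ ρ : List Bool, ∃ c : List ℕ × List ℕ,
        R a c ∧ okS (sg A n ++ ρ) c := by
      refine RE.ex (p := fun (a : α) (ρ : List Bool) => ∃ c : List ℕ × List ℕ,
        R a c ∧ okS (sg A n ++ ρ) c) ?_
      refine RE.ex (p := fun (x : α × List Bool) (c : List ℕ × List ℕ) =>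
        R x.1 c ∧ okS (sg A n ++ x.2) c) ?_
      refine RE.and ?_ ?_
      · exact RE.comp hR (f := fun x : (α × List Bool) × (List ℕ × List ℕ) => (x.1.1, x.2))
          (by fun_prop)
      · exact okS_re (f := fun x : (α × List Bool) × (List ℕ × List ℕ) => sg A n ++ x.1.2)
          (g := fun x => x.2) (by fun_prop) (by fun_prop)
    refine h3.of_eq fun a => ?_
    constructor
    · rintro ⟨ρ, c, h4, h5⟩
      by_contra h6
      exact hn ρ ⟨a, c, h6, h4, h5⟩
    · intro h4
      obtain ⟨c, h5, h6⟩ := (hS a).1 h4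
      obtain ⟨m, hm, h7⟩ := exists_okS h6 n
      obtain ⟨ρ, hρ⟩ := sg_append (A := A) hm
      exact ⟨ρ, c, h5, by rw [← hρ]; exact h7⟩

/-- A generic set is not computable. -/
theorem not_computable_of_generic {A : Set ℕ} (hA : Generic A) :
    ¬ ComputablePred fun n : ℕ => n ∈ A := by
  intro hc
  have hW : REPred fun τ : List Bool => ∃ x : ℕ,
      (τ[x]? = some true ∧ x ∉ A) ∨ (τ[x]? = some false ∧ x ∈ A) := by
    refine RE.ex (p := fun (τ : List Bool) (x : ℕ) =>
      (τ[x]? = some true ∧ x ∉ A) ∨ (τ[x]? = some false ∧ x ∈ A)) ?_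
    refine RE.or (RE.and (RE.eq (by fun_prop) (by fun_prop)) ?_)
      (RE.and (RE.eq (by fun_prop) (by fun_prop)) ?_)
    · exact RE.comp hc.not.to_re (f := fun x : List Bool × ℕ => x.2) (by fun_prop)
    · exact RE.comp hc.to_re (f := fun x : List Bool × ℕ => x.2) (by fun_prop)
  rcases hA _ hW with ⟨n, x, h⟩ | ⟨n, hn⟩
  · have hx : x < n := by
      by_contra hcon
      rw [List.getElem?_eq_none (by rw [sg_length]; omega)] at h
      simp at h
    rcases h with ⟨h1, h2⟩ | ⟨h1, h2⟩
    · exact h2 (((sg_get hx true).1 h1).1 rfl)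
    · have := ((sg_get hx false).1 h1).2 h2
      simp at this
  · by_cases h : n ∈ A
    · refine hn [false] ⟨n, Or.inr ⟨?_, h⟩⟩
      rw [List.getElem?_append_right (by rw [sg_length]), sg_length]
      simp
    · refine hn [true] ⟨n, Or.inl ⟨?_, h⟩⟩
      rw [List.getElem?_append_right (by rw [sg_length]), sg_length]
      simp

/-- The halting set. -/
def KK : Set ℕ := {n | ((Denumerable.ofNat Code n).eval n).Dom}

/-- The halting set is many-one complete. -/
theorem reduce_KK {α : Type} [Primcodable α] {p : α → Prop} (hp : REPred p) :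
    ∃ f : α → ℕ, Computable f ∧ ∀ a, p a ↔ f a ∈ KK := by
  obtain ⟨c, hc⟩ := Nat.Partrec.Code.exists_code.1 hp
  refine ⟨fun a => encode (Code.comp c (Code.const (encode a))), ?_, fun a => ?_⟩
  · have h1 : Primrec fun a : α => Code.comp c (Code.const (encode a)) :=
      Code.primrec₂_comp.comp (Primrec.const c) (Code.primrec_const.comp Primrec.encode)
    exact (Primrec.encode.comp h1).to_comp
  · have h1 : Code.eval c (encode a) =
        (Part.assert (p a) fun _ => Part.some ()).map encode := by
      rw [hc]; simp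
    have h2 : p a ↔ (Code.eval c (encode a)).Dom := by
      rw [h1]
      simp only [Part.map_Dom]
      constructor
      · intro h; exact ⟨h, trivial⟩
      · rintro ⟨h, -⟩; exact h
    have h3 : ((Denumerable.ofNat Code (encode (Code.comp c (Code.const (encode a))))).eval
        (encode (Code.comp c (Code.const (encode a))))) = Code.eval c (encode a) := by
      rw [Denumerable.ofNat_encode]
      show ((Code.const (encode a)).eval (encode (Code.comp c (Code.const (encode a)))) >>=
        c.eval) = _
      rw [Code.eval_const]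
      exact Part.bind_some _ _
    rw [h2, ← h3]
    exact Iff.rfl

/-- The complement of a c.e. set is c.e. in the halting set. -/
theorem rein_KK_not {α : Type} [Primcodable α] {p : α → Prop} (hp : REPred p) :
    REIn KK fun a => ¬ p a := by
  obtain ⟨f, hf, h⟩ := reduce_KK hp
  refine (REIn.not_mem (A := KK) hf).of_eq fun a => ?_
  rw [h a]

section construct

/-- The `e`-th c.e. set of strings. -/
def U (e : ℕ) (τ : List Bool) : Prop := ∃ s, wst (List Bool) e s τ = true

theorem U_re : REPred fun x : (ℕ × List Bool) × List Bool => U x.1.1 (x.1.2 ++ x.2) := by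
  refine RE.exN (p := fun (x : (ℕ × List Bool) × List Bool) s =>
    wst (List Bool) x.1.1 s (x.1.2 ++ x.2) = true) (RE.of_bool ?_)
  exact wst_comp.comp (f := fun p : (ℕ × ℕ) × List Bool => wst (List Bool) p.1.1 p.1.2 p.2)
    (g := fun x : ((ℕ × List Bool) × List Bool) × ℕ => ((x.1.1.1, x.2), x.1.1.2 ++ x.1.2))
    (by fun_prop)

/-- Graph of a partial recursive function. -/
theorem graph_re {α β : Type} [Primcodable α] [Primcodable β] {f : α →. β} (hf : Partrec f) :
    REPred fun x : α × β => x.2 ∈ f x.1 := by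
  have h1 : Partrec fun x : α × β => (f x.1).bind fun b =>
      Part.assert (b = x.2) fun _ => Part.some () := by
    refine Partrec.bind (hf.comp Computable.fst) ?_
    have h2 : REPred fun y : (α × β) × β => y.2 = y.1.2 :=
      RE.eq (by fun_prop) (by fun_prop)
    exact h2
  refine h1.dom_re.of_eq fun x => ?_
  simp only [Part.bind_dom]
  constructor
  · rintro ⟨h2, h3, -⟩
    rw [← h3]
    exact Part.get_mem h2
  · intro h2
    obtain ⟨h3, h4⟩ := h2
    exact ⟨h3, h4, trivial⟩

/-- There is a generic set computable from the halting set. -/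
theorem exists_generic : ∃ A : Set ℕ, Generic A ∧ REIn KK (fun x => x ∈ A) ∧
    REIn KK fun x => x ∉ A := by
  classical
  obtain ⟨f, hf, hf1, hf2⟩ := RE.uniformize
    (r := fun (x : ℕ × List Bool) (ρ : List Bool) => U x.1 (x.2 ++ ρ)) U_re
  -- one step
  let step : ℕ → List Bool → List Bool := fun e σ =>
    if h : (f (e, σ)).Dom then σ ++ ((f (e, σ)).get h ++ [false]) else σ ++ [false]
  let st : ℕ → List Bool := fun n => Nat.rec [] (fun e σ => step e σ) n
  have hst0 : st 0 = [] := rfl
  have hst1 : ∀ e, st (e + 1) = step e (st e) := fun e => rfl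
  have hstep : ∀ e σ, ∃ ρ, step e σ = σ ++ ρ ∧ ρ ≠ [] := by
    intro e σ
    by_cases h : (f (e, σ)).Dom
    · exact ⟨_, dif_pos h, by simp⟩
    · exact ⟨_, dif_neg h, by simp⟩
  have hmono : ∀ i j, i ≤ j → ∃ ρ, st j = st i ++ ρ := by
    intro i j hij
    induction j, hij using Nat.le_induction with
    | base => exact ⟨[], by simp⟩
    | succ j hij ih =>
      obtain ⟨ρ, hρ⟩ := ih
      obtain ⟨ρ', h1, -⟩ := hstep j (st j)
      refine ⟨ρ ++ ρ', ?_⟩
      rw [hst1, h1, hρ, List.append_assoc]
  have hlen : ∀ i, i ≤ (st i).length := by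
    intro i
    induction i with
    | zero => simp
    | succ i ih =>
      obtain ⟨ρ', h1, h2⟩ := hstep i (st i)
      rw [hst1, h1, List.length_append]
      have : 0 < ρ'.length := List.length_pos_iff.2 h2
      omega
  have hget : ∀ (i j x : ℕ) (b : Bool), (st i)[x]? = some b →
      ∀ b' : Bool, (st j)[x]? = some b' → b = b' := by
    have key : ∀ i j : ℕ, i ≤ j → ∀ (x : ℕ) (b : Bool),
        (st i)[x]? = some b → (st j)[x]? = some b := by
      intro i j hij x b hb
      obtain ⟨ρ, hρ⟩ := hmono i j hij
      rw [hρ, List.getElem?_append_left]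
      · exact hb
      · by_contra hcon
        rw [List.getElem?_eq_none (by omega)] at hb
        simp at hb
    intro i j x b hb b' hb'
    have h1 := key i (max i j) (le_max_left _ _) x b hb
    have h2 := key j (max i j) (le_max_right _ _) x b' hb'
    rw [h1] at h2
    exact Option.some.inj h2
  let A : Set ℕ := {x | ∃ i, (st i)[x]? = some true}
  have hA1 : ∀ x, x ∈ A ↔ ∃ i, (st i)[x]? = some true := fun x => Iff.rfl
  have hA0 : ∀ x, x ∉ A ↔ ∃ i, (st i)[x]? = some false := by
    intro x
    rw [hA1]
    constructor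
    · intro h
      have h1 : x < (st (x + 1)).length := lt_of_lt_of_le (Nat.lt_succ_self x) (hlen _)
      refine ⟨x + 1, ?_⟩
      rw [List.getElem?_eq_getElem h1]
      rcases hb : (st (x + 1))[x] with _ | _
      · rfl
      · exact absurd ⟨x + 1, by rw [List.getElem?_eq_getElem h1, hb]⟩ h
    · rintro ⟨i, hi⟩ ⟨j, hj⟩
      have := hget i j x _ hi _ hj
      simp at this
  have hseg : ∀ i, sg A (st i).length = st i := by
    intro i
    apply List.ext_getElem?
    intro x
    by_cases hx : x < (st i).length
    · rw [List.getElem?_eq_getElem hx]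
      rw [sg_get hx]
      rcases hb : (st i)[x] with _ | _
      · have : x ∉ A := (hA0 x).2 ⟨i, by rw [List.getElem?_eq_getElem hx, hb]⟩
        simp [this]
      · have : x ∈ A := (hA1 x).2 ⟨i, by rw [List.getElem?_eq_getElem hx, hb]⟩
        simp [this]
    · rw [List.getElem?_eq_none (l := st i) (by omega),
        List.getElem?_eq_none (by rw [sg_length]; omega)]
  -- the construction is computable in the halting set
  have hstepK : REIn KK fun x : (ℕ × List Bool) × List Bool => step x.1.1 x.1.2 = x.2 := by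
    have h1 : REIn KK fun x : (ℕ × List Bool) × List Bool =>
        (∃ ρ : List Bool, ρ ∈ f x.1 ∧ x.2 = x.1.2 ++ (ρ ++ [false])) ∨
        ((¬ ∃ ρ : List Bool, U x.1.1 (x.1.2 ++ ρ)) ∧ x.2 = x.1.2 ++ [false]) := by
      refine REIn.or (REIn.of_re ?_) (REIn.and ?_ (REIn.of_re ?_))
      · refine RE.ex (p := fun (x : (ℕ × List Bool) × List Bool) (ρ : List Bool) =>
          ρ ∈ f x.1 ∧ x.2 = x.1.2 ++ (ρ ++ [false])) ?_
        refine RE.and ?_ (RE.eq (by fun_prop) (by fun_prop))
        exact RE.comp (graph_re hf)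
          (f := fun x : ((ℕ × List Bool) × List Bool) × List Bool => (x.1.1, x.2))
          (by fun_prop)
      · have h2 : REPred fun x : ℕ × List Bool => ∃ ρ : List Bool, U x.1 (x.2 ++ ρ) :=
          RE.ex (p := fun (x : ℕ × List Bool) (ρ : List Bool) => U x.1 (x.2 ++ ρ)) U_re
        exact (rein_KK_not h2).comp (f := fun x : (ℕ × List Bool) × List Bool => x.1)
          (by fun_prop)
      · exact RE.eq (by fun_prop) (by fun_prop)
    refine h1.of_eq fun x => ?_
    obtain ⟨⟨e, σ⟩, τ⟩ := x
    show _ ↔ step e σ = τ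
    by_cases h : (f (e, σ)).Dom
    · have h2 : step e σ = σ ++ ((f (e, σ)).get h ++ [false]) := dif_pos h
      rw [h2]
      constructor
      · rintro (⟨ρ, h3, h4⟩ | ⟨h3, -⟩)
        · obtain ⟨h5, h6⟩ := h3
          rw [← h6] at h4
          exact h4.symm
        · exact absurd ((hf1 (e, σ)).1 h) h3
      · intro h3
        exact Or.inl ⟨_, Part.get_mem h, h3.symm⟩
    · have h2 : step e σ = σ ++ [false] := dif_neg h
      rw [h2]
      constructor
      · rintro (⟨ρ, h3, h4⟩ | ⟨h3, h4⟩)
        · exact absurd (Part.dom_iff_mem.2 ⟨ρ, h3⟩) h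
        · exact h4.symm
      · intro h3
        exact Or.inr ⟨fun h4 => h ((hf1 (e, σ)).2 h4), h3.symm⟩
  have hstK : REIn KK fun x : ℕ × List Bool => st x.1 = x.2 := by
    have h1 : REIn KK fun x : ℕ × List Bool => ∃ l : List (List Bool),
        l[0]? = some [] ∧
        (∀ y < x.1, ∃ u : List Bool × List Bool, l[y]? = some u.1 ∧ l[y + 1]? = some u.2 ∧
          step y u.1 = u.2) ∧
        l[x.1]? = some x.2 := by
      refine REIn.ex (S := fun (x : ℕ × List Bool) (l : List (List Bool)) =>
        l[0]? = some [] ∧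
        (∀ y < x.1, ∃ u : List Bool × List Bool, l[y]? = some u.1 ∧ l[y + 1]? = some u.2 ∧
          step y u.1 = u.2) ∧
        l[x.1]? = some x.2) ?_
      refine REIn.and (REIn.of_re (RE.eq (by fun_prop) (by fun_prop))) (REIn.and ?_
        (REIn.of_re (RE.eq (by fun_prop) (by fun_prop))))
      refine REIn.all_lt (S := fun (z : (ℕ × List Bool) × List (List Bool)) (y : ℕ) =>
        ∃ u : List Bool × List Bool, z.2[y]? = some u.1 ∧ z.2[y + 1]? = some u.2 ∧
        step y u.1 = u.2) ?_ (by fun_prop)
      refine REIn.ex (S := fun (z : ((ℕ × List Bool) × List (List Bool)) × ℕ)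
        (u : List Bool × List Bool) =>
        z.1.2[z.2]? = some u.1 ∧ z.1.2[z.2 + 1]? = some u.2 ∧ step z.2 u.1 = u.2) ?_
      refine REIn.and (REIn.of_re (RE.eq (by fun_prop) (by fun_prop)))
        (REIn.and (REIn.of_re (RE.eq (by fun_prop) (by fun_prop))) ?_)
      exact hstepK.comp (f := fun z : (((ℕ × List Bool) × List (List Bool)) × ℕ) ×
        (List Bool × List Bool) => ((z.1.2, z.2.1), z.2.2)) (by fun_prop)
    refine h1.of_eq fun x => ?_
    obtain ⟨e, σ⟩ := x
    show _ ↔ st e = σ
    constructor
    · rintro ⟨l, h2, h3, h4⟩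
      have h5 : ∀ y, y ≤ e → l[y]? = some (st y) := by
        intro y
        induction y with
        | zero => intro _; exact h2
        | succ y ih =>
          intro hy
          obtain ⟨u, hu1, hu2, hu3⟩ := h3 y hy
          rw [ih (by omega)] at hu1
          rw [hu2, ← hu3, ← Option.some.inj hu1, hst1]
      have h6 := h5 e le_rfl
      simp only at h4
      rw [h4] at h6
      exact (Option.some.inj h6).symm
    · rintro rfl
      have hl : ∀ y, y ≤ e → ((List.range (e + 1)).map st)[y]? = some (st y) := by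
        intro y hy
        rw [List.getElem?_map, List.getElem?_range (by omega)]
        rfl
      refine ⟨(List.range (e + 1)).map st, hl 0 (by omega), ?_, hl e le_rfl⟩
      intro y hy
      exact ⟨(st y, st (y + 1)), hl y (by simp only at hy; omega),
        hl (y + 1) (by simp only at hy; omega), (hst1 y).symm⟩
  have hbit : ∀ b : Bool, REIn KK fun x : ℕ => ∃ i, (st i)[x]? = some b := by
    intro b
    have h1 : REIn KK fun x : ℕ => ∃ u : ℕ × List Bool, st u.1 = u.2 ∧ u.2[x]? = some b := by
      refine REIn.ex (S := fun (x : ℕ) (u : ℕ × List Bool) => st u.1 = u.2 ∧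
        u.2[x]? = some b) ?_
      refine REIn.and ?_ (REIn.of_re (RE.eq (by fun_prop) (by fun_prop)))
      exact hstK.comp (f := fun z : ℕ × (ℕ × List Bool) => z.2) (by fun_prop)
    refine h1.of_eq fun x => ?_
    constructor
    · rintro ⟨⟨i, σ⟩, h2, h3⟩
      simp only at h2 h3
      subst h2
      exact ⟨i, h3⟩
    · rintro ⟨i, hi⟩
      exact ⟨(i, st i), rfl, hi⟩
  refine ⟨A, ?_, (hbit true).of_eq fun x => (hA1 x).symm,
    (hbit false).of_eq fun x => (hA0 x).symm⟩
  -- genericity
  intro W hW
  obtain ⟨e, he⟩ := wst_univ hW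
  by_cases h : (f (e, st e)).Dom
  · left
    have h1 : U e (st e ++ (f (e, st e)).get h) := hf2 (e, st e) _ (Part.get_mem h)
    have h2 : st (e + 1) = st e ++ ((f (e, st e)).get h ++ [false]) := by
      rw [hst1]; exact dif_pos h
    refine ⟨(st e ++ (f (e, st e)).get h).length, ?_⟩
    have h3 : sg A (st e ++ (f (e, st e)).get h).length = st e ++ (f (e, st e)).get h := by
      have h4 := hseg (e + 1)
      rw [h2, ← List.append_assoc] at h4
      obtain ⟨ρ, hρ⟩ := sg_append (A := A)
        (n := (st e ++ (f (e, st e)).get h).length)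
        (m := ((st e ++ (f (e, st e)).get h) ++ [false]).length) (by simp)
      rw [h4] at hρ
      have h5 := congrArg (List.take (st e ++ (f (e, st e)).get h).length) hρ
      rw [List.take_left', List.take_left'] at h5
      · exact h5.symm
      · exact sg_length _ _
      · rfl
    rw [h3]
    exact (he _).2 h1
  · right
    refine ⟨(st e).length, fun ρ hρ => h ((hf1 (e, st e)).2 ⟨ρ, ?_⟩)⟩
    rw [hseg] at hρ
    exact (he _).1 hρ

end construct

end Run7.h48.Gen
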